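import Pool.Agent.Helper49.RU.St

/-!
RU MODULE SEQ: the sequence of blocks.
-/

set_option autoImplicit false

namespace Pool.Agent.Helper48.RU

open Pool.Agent.Helper49.RU
open MeasureTheory Filter Topology Complex
open scoped ENNReal Cardinal ComplexConjugate

/-- The squares of the norms of the blocks are summable. -/
theorem summable_sq (h : H) : Summable (fun a => ‖h a‖ ^ 2) := by
  have h1 := (lp.memℓp h).summable (by norm_num)
  simpa using h1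

/-- The tails over a finite set of vectors are uniformly small. -/
theorem tail_bound {k : ℕ} (Z : Finset (Fin k → Q)) (w : Idx → H) (δ : ℝ) (hδ : 0 < δ) :
    ∃ N : ℕ, ∀ g ∈ Z, ∀ F : Finset ℕ, (∀ a ∈ F, N ≤ a) →
      ∑ a ∈ F, ‖(w ⟨k, g⟩) a‖ ^ 2 ≤ δ := by
  have h1 : ∀ g : Fin k → Q, ∃ N : ℕ, ∀ F : Finset ℕ, (∀ a ∈ F, N ≤ a) →
      ∑ a ∈ F, ‖(w ⟨k, g⟩) a‖ ^ 2 ≤ δ := by
    intro g
    obtain ⟨s, hs⟩ := summable_iff_vanishing_norm.1 (summable_sq (w ⟨k, g⟩)) δ hδ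
    refine ⟨s.sup id + 1, fun F hF => ?_⟩
    have hd : Disjoint F s := by
      rw [Finset.disjoint_left]
      intro a ha has
      have h2 := hF a ha
      have h3 : a ≤ s.sup id := Finset.le_sup (f := id) has
      omega
    have h4 := hs F hd
    exact (le_abs_self _).trans (le_of_lt h4)
  choose N hN using h1
  refine ⟨Z.sup N, fun g hg F hF => hN g F (fun a ha => ?_)⟩
  exact (Finset.le_sup (f := N) hg).trans (hF a ha)

/-- The state of the recursion: the last block and the set of the earlier blocks. -/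
structure STT where
  k : ℕ
  Z : Finset (Fin k → Q)
  P : V k →L[ℂ] V k
  F : Finset ℕ

/-- The invariant. -/
def Inv (X : Set Code) (w : Idx → H) (ε : ℝ) (K : ℕ) (n : ℕ) (s : STT) : Prop :=
  (∀ a ∈ s.F, K ≤ a) ∧ K ≤ s.k ∧ n ≤ s.k ∧ (⟨s.k, s.Z⟩ : Code) ∈ X ∧ Big n s.Z ∧ ‖s.P‖ ≤ 1 ∧
    (∀ g ∈ s.Z, ‖s.P ((w ⟨s.k, g⟩) s.k) - pz (zz g) ((w ⟨s.k, g⟩) s.k)‖ ≤ ε) ∧
    (∀ g ∈ s.Z, ∑ a ∈ s.F, ‖(w ⟨s.k, g⟩) a‖ ^ 2 ≤ ε ^ 2)

theorem hSEQ (hHLF : StHLF) (hFIN : StFIN) (hSUP : StSUP) : StSEQ := by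
  intro X hX w ε hw hε
  obtain ⟨Y, hYX, hY, K, hK⟩ := hSUP X hX w (ε ^ 2) hw (by positivity)
  -- one step
  have step : ∀ (n : ℕ) (F : Finset ℕ) (N : ℕ), (∀ a ∈ F, K ≤ a) →
      ∃ s : STT, s.F = F ∧ N ≤ s.k ∧ Inv X w ε K n s := by
    intro n F N hF
    obtain ⟨L, hL⟩ := hFIN n ε hε
    obtain ⟨k, hk, Z, hZY, hZB, hZs⟩ := hK F hF (max (max n K) (max N L))
    have hBL : Big L Z := hHLF.1 L _ k Z (by omega) hZB
    obtain ⟨Z', hZ'Z, hB, P, hP, hPe⟩ := hL k Z hBL (fun g => (w ⟨k, g⟩) k) (fun g =>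
      (lp.norm_apply_le_norm (by norm_num) (w ⟨k, g⟩) k).trans (hw _))
    refine ⟨⟨k, Z', P, F⟩, rfl, ?_, hF, ?_, ?_, hYX (hY.1 k Z Z' hZ'Z hZY), hB, hP, hPe,
      fun g hg => hZs g (hZ'Z hg)⟩
    · show N ≤ k
      omega
    · show K ≤ k
      omega
    · show n ≤ k
      omega
  -- the relation
  have rel : ∀ (n : ℕ) (s : {s : STT // Inv X w ε K n s}), ∃ s' : {s : STT // Inv X w ε K (n + 1) s},
      s'.1.F = insert s.1.k s.1.F ∧ s.1.k < s'.1.k ∧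
      ∀ g ∈ s.1.Z, ∀ F : Finset ℕ, (∀ a ∈ F, s'.1.k ≤ a) →
        ∑ a ∈ F, ‖(w ⟨s.1.k, g⟩) a‖ ^ 2 ≤ ε ^ 2 := by
    rintro n ⟨s, hs⟩
    obtain ⟨N, hN⟩ := tail_bound s.Z w (ε ^ 2) (by positivity)
    obtain ⟨s', h1, h2, h3⟩ := step (n + 1) (insert s.k s.F) (max N (s.k + 1)) (by
      intro a ha
      rcases Finset.mem_insert.1 ha with rfl | ha
      · exact hs.2.1
      · exact hs.1 a ha)
    refine ⟨⟨s', h3⟩, h1, ?_, fun g hg F hF => hN g hg F (fun a ha => ?_)⟩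
    · show s.k < s'.k
      omega
    · have := hF a ha
      change s'.k ≤ a at this
      omega
  obtain ⟨s0, h01, h02, h03⟩ := step 0 ∅ 0 (by simp)
  choose nx hnx1 hnx2 hnx3 using rel
  let sq : ∀ n : ℕ, {s : STT // Inv X w ε K n s} := fun n =>
    Nat.rec (motive := fun n => {s : STT // Inv X w ε K n s}) ⟨s0, h03⟩ (fun n s => nx n s) n
  have hsq : ∀ n, sq (n + 1) = nx n (sq n) := fun n => rfl
  have hmono : StrictMono (fun n => (sq n).1.k) := by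
    refine strictMono_nat_of_lt_succ (fun n => ?_)
    show (sq n).1.k < (sq (n + 1)).1.k
    rw [hsq]
    exact hnx2 n (sq n)
  have hFn : ∀ n, (sq n).1.F = (Finset.range n).image (fun m => (sq m).1.k) := by
    intro n
    induction n with
    | zero =>
      show s0.F = _
      rw [h01]
      rfl
    | succ n ih =>
      rw [hsq, hnx1, ih, Finset.range_add_one, Finset.image_insert]
  refine ⟨fun n => (sq n).1.k, fun n => (sq n).1.Z, fun n => (sq n).1.P, hmono,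
    fun n => (sq n).2.2.2.1, fun n => (sq n).2.2.2.2.1, fun n => (sq n).2.2.2.2.2.1,
    fun n => (sq n).2.2.2.2.2.2.1, fun n => (sq n).2.2.2.2.2.2.2.1, fun n g hg => ?_,
    fun n g hg F hF => ?_⟩
  · have h := (sq n).2.2.2.2.2.2.2.2 g hg
    rw [hFn n, Finset.sum_image (fun a _ b _ hab => hmono.injective hab)] at h
    exact h
  · refine hnx3 n (sq n) g hg F (fun a ha => ?_)
    rw [← hsq]
    exact hF a ha

end Pool.Agent.Helper48.RU
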